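import Pool.Agent.Helper8_HK.Stmt2

/-! Module CHN of squad HK: the cyclic chain lemma. -/

namespace Pool.Agent.HK.H98

private lemma chain (r : ℕ) (hr : 2 ≤ r) (D : ZMod r → ℤ) (p : ℤ) (hp : 0 ≤ p) (m : ZMod r)
    (h : ∀ i, i ≠ m → D i ≤ p * D (i + 1)) (h0 : D m ≤ 0) : ∀ j, D j ≤ 0 := by
  have : NeZero r := ⟨by omega⟩
  have key : ∀ k : ℕ, D (m - (k : ZMod r)) ≤ 0 := by
    intro k
    induction k with
    | zero => simpa using h0
    | succ k ih =>
      by_cases hi : m - ((k + 1 : ℕ) : ZMod r) = m
      · rw [hi]; exact h0
      · have h1 := h _ hi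
        have e : m - ((k + 1 : ℕ) : ZMod r) + 1 = m - (k : ZMod r) := by push_cast; ring
        rw [e] at h1
        exact h1.trans (mul_nonpos_of_nonneg_of_nonpos hp ih)
  intro j
  have h1 := key (m - j).val
  rw [ZMod.natCast_zmod_val] at h1
  simpa using h1

theorem chn : CHNStmt := by
  intro p r hp hr t t' ht ht' m
  have : NeZero r := ⟨by omega⟩
  have : Fact (1 < r) := ⟨by omega⟩
  have hp2 : 2 ≤ p := hp.two_le
  have hb : ∀ i, 1 ≤ t i ∧ t i ≤ 2 := fun i => by rcases ht i with h | h <;> omega
  have hb' : ∀ i, 1 ≤ t' i ∧ t' i ≤ 2 := fun i => by rcases ht' i with h | h <;> omega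
  have hd : ∀ i, (dt p t i : ℤ) = p * t (i + 1) - t i := by
    intro i
    have : t i ≤ p * t (i + 1) := by nlinarith [hb i, hb (i + 1)]
    unfold dt; push_cast [Nat.cast_sub this]; ring
  have hd' : ∀ i, (dt p t' i : ℤ) = p * t' (i + 1) - t' i := by
    intro i
    have : t' i ≤ p * t' (i + 1) := by nlinarith [hb' i, hb' (i + 1)]
    unfold dt; push_cast [Nat.cast_sub this]; ring
  set D : ZMod r → ℤ := fun i => (t' i : ℤ) - t i with hD
  have hDb : ∀ i, -1 ≤ D i ∧ D i ≤ 1 := by
    intro i
    have h1 := hb i; have h2 := hb' i
    simp only [hD]; omega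
  have hm1 : m ≠ m + 1 := by
    intro h
    have : (1 : ZMod r) = 0 := by
      have := congrArg (fun x => x - m) h
      simpa using this.symm
    exact one_ne_zero this
  have hpz : (2 : ℤ) ≤ p := by exact_mod_cast hp2
  -- consequences common to both parts
  have common : ∀ c : ℕ, (∀ i, dt p t i ≤ dt p t' i + (if i = m then c else 0)) →
      (∀ i, i ≠ m → D i ≤ p * D (i + 1)) ∧ D m ≤ p * D (m + 1) + c ∧
      (∀ j, j ≠ m + 1 → 0 ≤ D j) := by
    intro c h
    have h1 : ∀ i, i ≠ m → D i ≤ p * D (i + 1) := by
      intro i hi
      have h2 := h i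
      rw [if_neg hi] at h2
      have h3 : (dt p t i : ℤ) ≤ dt p t' i := by exact_mod_cast h2
      rw [hd, hd'] at h3
      simp only [hD]; linarith
    refine ⟨h1, ?_, ?_⟩
    · have h2 := h m
      rw [if_pos rfl] at h2
      have h3 : (dt p t m : ℤ) ≤ dt p t' m + c := by exact_mod_cast h2
      rw [hd, hd'] at h3
      simp only [hD]; linarith
    · intro j hj
      by_contra hneg
      have hjm : D j = -1 := by have := hDb j; omega
      have h2 := h1 (j - 1) (by
        intro h; exact hj (by rw [← h]; ring))
      have e : j - 1 + 1 = j := by ring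
      rw [e, hjm] at h2
      have := hDb (j - 1)
      linarith
  have fin : (∀ j, D j = 0) → t' = t := by
    intro h
    funext j
    have := h j
    simp only [hD] at this
    omega
  constructor
  · intro h
    obtain ⟨h1, h2, h3⟩ := common 1 h
    have hDm : 0 ≤ D m := h3 m hm1
    have hall : ∀ j, 0 ≤ D j := by
      intro j
      by_cases hj : j = m + 1
      · subst hj
        by_contra hneg
        have hjm : D (m + 1) = -1 := by have := hDb (m + 1); omega
        rw [hjm] at h2
        push_cast at h2
        linarith
      · exact h3 j hj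
    by_cases hm : D m = 1
    · right
      have h4 := hb m; have h5 := hb' m
      simp only [hD] at hm
      omega
    · left
      have hm0 : D m ≤ 0 := by have := hDb m; omega
      have h4 := chain r hr D p (by linarith) m h1 hm0
      exact fin (fun j => le_antisymm (h4 j) (hall j))
  · intro hm hm' h
    obtain ⟨h1, h2, h3⟩ := common p h
    have hDm : 0 ≤ D m := h3 m hm1
    by_cases hm2 : D m = 1
    · -- then `D (m+1) = 0`
      right; left
      have h4 : t' m = 2 := by
        have h4 := hb m; have h5 := hb' m
        simp only [hD] at hm2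
        omega
      refine ⟨h4, ?_⟩
      have h5 := hb' (m + 1)
      by_contra hne
      have h6 : t' (m + 1) = 1 := by omega
      have h7 : D (m + 1) = -1 := by simp only [hD]; omega
      rw [hm2, h7] at h2
      linarith
    · have hm0 : D m ≤ 0 := by have := hDb m; omega
      have h4 := chain r hr D p (by linarith) m h1 hm0
      have h5 := hb' (m + 1)
      rcases ht' (m + 1) with h6 | h6
      · right; right
        funext j
        by_cases hj : j = m + 1
        · subst hj
          simp [h6]
        · rw [Function.update_of_ne hj]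
          have := le_antisymm (h4 j) (h3 j hj)
          simp only [hD] at this
          omega
      · left
        apply fin
        intro j
        by_cases hj : j = m + 1
        · subst hj
          simp only [hD]; omega
        · exact le_antisymm (h4 j) (h3 j hj)

end Pool.Agent.HK.H98
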