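import Pool.Agent.Helper46_HK.CMF
import Pool.Agent.Helper8_HK.Stmt3

/-! Module BTM of squad HK: the first coefficient of `T_m f`. -/

namespace Pool.Agent.HK.H98

open Polynomial Filter Pool.Agent.HK.H46C

section

variable {F : Type} [Field F] [Fintype F]

/-- the terms of the Hecke sum -/
theorem btm_term {R : Type} [AddCommGroup R] (hL : LAUStmt) (hM : MTXStmt) (hV : VALStmt)
    {φ : GLK F → R} (hφ : IsHarm φ) {a b d : F[X]} (ha : a.Monic) (hd : d.Monic) (k : ℤ)
    (y : Kinf F) :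
    φ (hmat (a, b, d) * mat ((unif F) ^ k) y 0 1) =
      val φ (k + (d.natDegree : ℤ) - (a.natDegree : ℤ))
        ((emb F a * y + emb F b) / emb F d) := by
  have hπ : (unif F) ≠ 0 := (hL F).2.2.2.2.2.1
  obtain ⟨ua, hua, ha0, ha1⟩ := emb_form hL ha
  obtain ⟨ud, hud, hd0, hd1⟩ := emb_form hL hd
  obtain ⟨hdi, hdi1⟩ := (hL F).2.2.2.2.2.2.2.2.2.1 ud hd0 (by rw [hd1]; exact one_ne_zero)
  have e1 : hmat (a, b, d) * mat ((unif F) ^ k) y 0 1
      = mat (emb F a * (unif F) ^ k) (emb F a * y + emb F b) 0 (emb F d) := by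
    unfold hmat
    rw [(hM F).2.2.1 _ _ _ _ _ _ _ _ (by
      rw [mul_zero, sub_zero]
      exact mul_ne_zero (emb_ne hL ha) (emb_ne hL hd)) (by
      rw [mul_zero, sub_zero, mul_one]
      exact zpow_ne_zero _ hπ)]
    simp only [mul_zero, add_zero, mul_one, zero_mul, zero_add]
  rw [e1]
  have h2 := (hV F R φ hφ).2.1 1 (emb F a * (unif F) ^ k) (emb F a * y + emb F b)
    (emb F d) (k + (d.natDegree : ℤ) - (a.natDegree : ℤ)) (ua * ud⁻¹) (emb_ne hL hd) ?_ ?_ ?_
  · rw [one_mul, one_mul] at h2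
    exact h2
  · have hud0 : ud ≠ 0 := by
      intro h
      rw [h, HahnSeries.coeff_zero] at hd1
      exact zero_ne_one hd1
    rw [hua, hud, show (k + (d.natDegree : ℤ) - (a.natDegree : ℤ))
      = (-(a.natDegree : ℤ)) + k - (-(d.natDegree : ℤ)) by ring,
      zpow_sub₀ hπ, zpow_add₀ hπ]
    field_simp
  · have := inO_mul hL ha0 hdi
    rwa [add_zero] at this
  · have := ((hL F).2.2.2.2.2.2.2.1 0 0 ua ud⁻¹ ha0 hdi).2
    rw [add_zero] at this
    rw [this, ha1, hdi1, hd1, inv_one, mul_one]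
    exact one_ne_zero

/-- the change of variables -/
theorem btm_bij (hL : LAUStmt) {a d : F[X]} (ha : a.Monic) (hd : d.Monic) (al de N N' : ℕ)
    (hal : a.natDegree = al) (hde : d.natDegree = de) (hN : N' + al = N + de) :
    ∃ Φ : (Fin N → F) × (Fin de → F) → (Fin N' → F) × (Fin al → F),
      Function.Bijective Φ ∧ ∀ p : (Fin N → F) × (Fin de → F), ∃ (x' : Kinf F) (w t : F[X]),
        (emb F a * ds 1 p.1 + emb F (pol p.2)) / emb F d = x' + emb F w ∧
        InO ((N' : ℤ) + 1) (x' - ds 1 (Φ p).1) ∧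
        ds 1 p.1 = emb F d / emb F a * x' + emb F (pol (Φ p).2) / emb F a + emb F t := by
  classical
  have h11 := (hL F).2.2.2.2.2.2.2.2.2.2.1
  have h12 := (hL F).2.2.2.2.2.2.2.2.2.2.2.1
  choose pt hpt using h11
  have ha0 := emb_ne hL ha
  have hd0 := emb_ne hL hd
  -- the data
  set X : (Fin N → F) × (Fin de → F) → Kinf F :=
    fun p => (emb F a * ds 1 p.1 + emb F (pol p.2)) / emb F d with hX
  set X' : (Fin N → F) × (Fin de → F) → Kinf F := fun p => X p - emb F (pt (X p)) with hX'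
  set c' : (Fin N → F) × (Fin de → F) → F[X] := fun p => d * pt (X p) - pol p.2 with hc'
  have hrel : ∀ p, emb F a * ds 1 p.1 = emb F d * X' p + emb F (c' p) := by
    intro p
    have h1 : emb F d * X p = emb F a * ds 1 p.1 + emb F (pol p.2) := by
      rw [hX]; field_simp
    simp only [hX', hc', map_sub, map_mul, mul_sub, h1]
    ring
  have hmod : ∀ p, pol (fun j : Fin al => (c' p %ₘ a).coeff (j : ℕ)) = c' p %ₘ a := by
    intro p
    apply pol_surj
    have := degree_modByMonic_lt (c' p) ha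
    rwa [degree_eq_natDegree ha.ne_zero, hal] at this
  refine ⟨fun p => (dg 1 N' (X' p), fun j => (c' p %ₘ a).coeff (j : ℕ)), ?_, ?_⟩
  · rw [Fintype.bijective_iff_injective_and_card]
    constructor
    · intro p p1 h
      obtain ⟨h1, h2⟩ := Prod.ext_iff.mp h
      simp only at h1 h2
      have h3 : InO (1 + (N' : ℤ)) (X' p - X' p1) := dg_inO (hpt _) (hpt _) h1
      have h4 : c' p %ₘ a = c' p1 %ₘ a := by rw [← hmod p, ← hmod p1, h2]
      -- `c' p - c' p1 = a t`
      obtain ⟨t, ht⟩ : ∃ t : F[X], c' p - c' p1 = a * t := by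
        refine ⟨c' p /ₘ a - c' p1 /ₘ a, ?_⟩
        have e1 := modByMonic_add_div (c' p) a
        have e2 := modByMonic_add_div (c' p1) a
        rw [h4] at e1
        linear_combination e2 - e1
      have h5 : ds 1 p.1 - ds 1 p1.1 - emb F t = emb F d * (X' p - X' p1) * (emb F a)⁻¹ := by
        have e1 := hrel p
        have e2 := hrel p1
        have e3 : emb F (c' p) - emb F (c' p1) = emb F a * emb F t := by
          rw [← map_sub, ht, map_mul]
        field_simp
        linear_combination e1 - e2 + e3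
      have h6 : InO ((N : ℤ) + 1) (ds 1 p.1 - ds 1 p1.1 - emb F t) := by
        rw [h5]
        refine inO_mono (inO_mul hL (inO_mul hL (inO_emb_monic hL hd) h3) (inO_emb_inv hL ha)) ?_
        rw [hal, hde]; omega
      have h7 : InO 1 (emb F t) := by
        have e1 : emb F t = (ds 1 p.1 - ds 1 p1.1) - (ds 1 p.1 - ds 1 p1.1 - emb F t) := by ring
        rw [e1]
        exact inO_sub (inO_sub (inO_ds hL 1 _) (inO_ds hL 1 _)) (inO_mono h6 (by omega))
      have h8 : t = 0 := h12 t h7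
      rw [h8, map_zero, sub_zero] at h6
      have h9 : p.1 = p1.1 := by
        have := dg_eq (k := 1) (N := N) (x := ds 1 p.1) (y := ds 1 p1.1)
          (by rw [add_comm]; exact h6)
        rwa [dg_ds hL, dg_ds hL] at this
      rw [h8, map_zero, sub_zero, h9, sub_self] at h5
      have h10 : X' p = X' p1 := by
        have : emb F d * (X' p - X' p1) * (emb F a)⁻¹ = 0 := h5.symm
        rw [mul_eq_zero, mul_eq_zero, inv_eq_zero] at this
        rcases this with (h | h) | h
        · exact absurd h hd0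
        · exact sub_eq_zero.1 h
        · exact absurd h ha0
      have h13 : c' p = c' p1 := by
        rw [h8, mul_zero] at ht
        exact sub_eq_zero.1 ht
      -- `d (pt - pt1) = pol - pol1`
      have h14 : d * (pt (X p) - pt (X p1)) = pol p.2 - pol p1.2 := by
        have : d * pt (X p) - pol p.2 = d * pt (X p1) - pol p1.2 := h13
        linear_combination this
      have h15 : pol p.2 - pol p1.2 = 0 := by
        by_contra hne
        have h16 : (pol p.2 - pol p1.2).degree < d.degree := by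
          rw [degree_eq_natDegree hd.ne_zero, hde]
          exact lt_of_le_of_lt (degree_sub_le _ _) (max_lt (pol_deg _) (pol_deg _))
        have h17 : d ∣ pol p.2 - pol p1.2 := ⟨_, h14.symm⟩
        exact hne (Polynomial.eq_zero_of_dvd_of_degree_lt h17 h16)
      exact Prod.ext h9 (pol_inj (sub_eq_zero.1 h15))
    · rw [Fintype.card_prod, Fintype.card_prod, Fintype.card_fun, Fintype.card_fun,
        Fintype.card_fun, Fintype.card_fun, Fintype.card_fin, Fintype.card_fin, Fintype.card_fin,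
        Fintype.card_fin, ← pow_add, ← pow_add, hN]
  · intro p
    refine ⟨X' p, pt (X p), c' p /ₘ a, ?_, ?_, ?_⟩
    · simp only [hX', hX]; ring
    · have := dg_spec hL 1 N' (X' p) (hpt _)
      rwa [add_comm] at this
    · simp only
      rw [hmod p]
      have e1 := congrArg (emb F) (modByMonic_add_div (c' p) a)
      rw [map_add, map_mul] at e1
      have e2 := hrel p
      field_simp
      linear_combination e2 - e1

end

section

variable {C : Type} [NormedField C] [IsUltrametricDist C]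

theorem btm_pow (x y : C) (hx : ‖x‖ ≤ 1) (hy : ‖y‖ ≤ 1) (k : ℕ) :
    ‖x ^ k - y ^ k‖ ≤ ‖x - y‖ := by
  induction k with
  | zero => simp
  | succ k ih =>
    have e : x ^ (k + 1) - y ^ (k + 1) = x * (x ^ k - y ^ k) + (x - y) * y ^ k := by ring
    rw [e]
    refine (IsUltrametricDist.norm_add_le_max _ _).trans (max_le ?_ ?_)
    · rw [norm_mul]
      calc ‖x‖ * ‖x ^ k - y ^ k‖ ≤ 1 * ‖x - y‖ :=
            mul_le_mul hx ih (norm_nonneg _) zero_le_one
        _ = _ := one_mul _
    · rw [norm_mul, norm_pow]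
      calc ‖x - y‖ * ‖y‖ ^ k ≤ ‖x - y‖ * 1 :=
            mul_le_mul_of_nonneg_left (pow_le_one₀ (norm_nonneg _) hy) (norm_nonneg _)
        _ = _ := mul_one _

variable {F : Type} [Field F] [Fintype F]

omit [IsUltrametricDist C] in
theorem btm_norm (ι : Kinf F →+* C) (hι : NormOK ι) {k : ℤ} {x : Kinf F} (h : InO k x) :
    ‖ι x‖ ≤ ((Fintype.card F : ℕ) : ℝ) ^ (-k) := by
  have hq : (1 : ℝ) < ((Fintype.card F : ℕ) : ℝ) := by
    exact_mod_cast Fintype.one_lt_card (α := F)
  by_cases hx : x = 0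
  · subst hx
    rw [map_zero, norm_zero]
    positivity
  · rw [hι x hx]
    apply zpow_le_zpow_right₀ hq.le
    have h1 : HahnSeries.coeff x (HahnSeries.order x) ≠ 0 := fun h0 => hx (HahnSeries.coeff_order_eq_zero.1 h0)
    have h2 : k ≤ HahnSeries.order x := by
      by_contra hlt
      exact h1 (h _ (by omega))
    omega

/-- the main estimate -/
theorem btm_main (hL : LAUStmt) (hV : VALStmt) (ι : Kinf F →+* C) (hι : NormOK ι)
    {φ : GLK F → C} {B : ℝ} (hφ : IsHarm φ) (hB : ∀ g, ‖φ g‖ ≤ B) {n : F[X]} (hI : Invt n φ)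
    (e : C → C) (he : IsEA ι e) (he1 : ∀ x : Kinf F, ‖e (ι x)‖ ≤ 1) {a d : F[X]}
    (ha : a.Monic) (hd : d.Monic) (al de N N' : ℕ) (hal : a.natDegree = al)
    (hde : d.natDegree = de) (hN : N' + al = N + de) (Q : ℕ) :
    ‖(∑ p : (Fin N → F) × (Fin de → F), val φ ((N' : ℤ) + 1)
        ((emb F a * ds 1 p.1 + emb F (pol p.2)) / emb F d) * e (ι (ds 1 p.1)) ^ Q) -
      ∑ r : (Fin N' → F) × (Fin al → F), val φ ((N' : ℤ) + 1) (ds 1 r.1) *
        (e (ι (emb F d / emb F a * ds 1 r.1)) + e (ι (emb F (pol r.2) / emb F a))) ^ Q‖ ≤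
    B * (((Fintype.card F : ℕ) : ℝ) ^ (N + 1))⁻¹ := by
  have hB0 : 0 ≤ B := (norm_nonneg _).trans (hB 1)
  have hq : (1 : ℝ) < ((Fintype.card F : ℕ) : ℝ) := by
    exact_mod_cast Fintype.one_lt_card (α := F)
  obtain ⟨Φ, hΦ, hspec⟩ := btm_bij hL ha hd al de N N' hal hde hN
  rw [← hΦ.sum_comp, ← Finset.sum_sub_distrib]
  apply IsUltrametricDist.norm_sum_le_of_forall_le_of_nonneg (by positivity)
  intro p _
  obtain ⟨x', w, t, h1, h2, h3⟩ := hspec p
  have hval : val φ ((N' : ℤ) + 1) ((emb F a * ds 1 p.1 + emb F (pol p.2)) / emb F d) =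
      val φ ((N' : ℤ) + 1) (ds 1 (Φ p).1) := by
    rw [h1, ((hV F C φ hφ).2.2.2.2.2.2 n hI).1]
    exact val_congr hV hφ h2
  set δ : Kinf F := emb F d / emb F a * (x' - ds 1 (Φ p).1) with hδ
  have hδO : InO ((N : ℤ) + 1) δ := by
    rw [hδ, div_eq_mul_inv]
    refine inO_mono (inO_mul hL (inO_mul hL (inO_emb_monic hL hd) (inO_emb_inv hL ha)) h2) ?_
    rw [hal, hde]; omega
  have hδn : ‖ι δ‖ ≤ (((Fintype.card F : ℕ) : ℝ) ^ (N + 1))⁻¹ := by
    have := btm_norm ι hι hδO
    rwa [zpow_neg, show ((N : ℤ) + 1) = ((N + 1 : ℕ) : ℤ) by push_cast; ring, zpow_natCast] at this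
  have hδe : ‖e (ι δ)‖ ≤ (((Fintype.card F : ℕ) : ℝ) ^ (N + 1))⁻¹ := by
    rw [he.nrm]
    · exact hδn
    · refine lt_of_le_of_lt hδn (inv_lt_one_of_one_lt₀ (one_lt_pow₀ hq (by omega)))
  have hE : e (ι (ds 1 p.1)) = e (ι (emb F d / emb F a * ds 1 (Φ p).1)) +
      e (ι (emb F (pol (Φ p).2) / emb F a)) + e (ι δ) := by
    have e1 : (ds 1 p.1 : Kinf F) = emb F d / emb F a * ds 1 (Φ p).1 +
        emb F (pol (Φ p).2) / emb F a + δ + emb F t := by
      rw [h3, hδ]; ring
    rw [e1, map_add, map_add, map_add, he.add, he.add, he.add, he.van, add_zero]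
  have hY : ‖e (ι (emb F d / emb F a * ds 1 (Φ p).1)) +
      e (ι (emb F (pol (Φ p).2) / emb F a))‖ ≤ 1 := by
    rw [← he.add, ← map_add]; exact he1 _
  rw [hval, ← mul_sub, norm_mul]
  have hφB : ‖val φ ((N' : ℤ) + 1) (ds 1 (Φ p).1)‖ ≤ B := hB _
  apply mul_le_mul hφB _ (norm_nonneg _) hB0
  refine (btm_pow _ _ (he1 _) hY Q).trans ?_
  rw [hE, add_sub_cancel_left]
  exact hδe

end

theorem btm (hINT : INTStmt) (hLIP : LIPStmt) (hVAL : VALStmt) (hLAU : LAUStmt) (hMTX : MTXStmt)
    (hHPM : HPMStmt) (hHWD : HWDStmt) (hPOW : POWStmt) (hTBB : TBBStmt) : BTMStmt := by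
  intro F _ _ C _ _ _ _ ι hι φ B n m hn hm hφ hB hI h0 e he
  classical
  have hB0 : 0 ≤ B := (norm_nonneg _).trans (hB 1)
  have hq : (1 : ℝ) < ((Fintype.card F : ℕ) : ℝ) := by
    exact_mod_cast Fintype.one_lt_card (α := F)
  set Q := Fintype.card F - 1 with hQ
  have he1 : ∀ x : Kinf F, ‖e (ι x)‖ ≤ 1 := by
    intro x
    exact ((hTBB F C ι hι e he).1 x).trans (inv_le_one_of_one_le₀ hq.le)
  have hfin : (HIdx n m).Finite := (hHPM F n m hn hm).1
  have hmem : ∀ x, x ∈ hfin.toFinset ↔ (x.1.Monic ∧ x.2.2.Monic ∧ x.1 * x.2.2 = m ∧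
      IsCoprime x.1 n ∧ x.2.1.degree < x.2.2.degree) := fun x => by
    rw [Set.Finite.mem_toFinset]
    rfl
  have hhecke : ∀ g : GLK F, hecke n m φ g = ∑ x ∈ hfin.toFinset, φ (hmat x * g) := by
    intro g
    show (∑ᶠ x ∈ HIdx n m, φ (hmat x * g)) = _
    exact finsum_mem_eq_finite_toFinset_sum _ hfin
  have hhB : ∀ g, ‖hecke n m φ g‖ ≤ B := by
    intro g
    rw [hhecke]
    exact IsUltrametricDist.norm_sum_le_of_forall_le_of_nonneg hB0 (fun x _ => hB _)
  have hhH : IsHarm (hecke n m φ) := (hHWD F C n m hn hm φ hφ hI).1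
  obtain ⟨-, -, l3, l4⟩ := hLIP F C ι hι
  -- the two integrands
  set G : Kinf F → C := fun x => (e (ι x)) ^ Q with hG
  set G' : Kinf F → C := fun x => (e (ι (emb F m * x))) ^ Q with hG'
  have hGL : LipK ι G := by
    have := l3 _ Q (l4 e he 1)
    simpa only [one_mul] using this
  have hGL' : LipK ι G' := l3 _ Q (l4 e he (emb F m))
  have t1 : Tendsto (fun N : ℕ => SInt (hecke n m φ) N G) atTop
      (nhds (IntK (hecke n m φ) G)) := (hINT F C ι hι (hecke n m φ) B hhH hhB).1 G hGL
  have t2 : Tendsto (fun N : ℕ => SInt φ (N + m.natDegree) G') atTop (nhds (IntK φ G')) :=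
    (tendsto_add_atTop_iff_nat m.natDegree).2 ((hINT F C ι hι φ B hφ hB).1 G' hGL')
  -- the sum over the fibre of `(a, d)`
  set S : ℕ → F[X] × F[X] → C := fun N p =>
    ∑ v : Fin p.2.natDegree → F, ∑ s : Fin N → F,
      val φ ((N : ℤ) + 1 + (p.2.natDegree : ℤ) - (p.1.natDegree : ℤ))
        ((emb F p.1 * ds 1 s + emb F (pol v)) / emb F p.2) * e (ι (ds 1 s)) ^ Q with hS
  have hSd : ∀ N : ℕ, SInt (hecke n m φ) N G =
      ∑ p ∈ hfin.toFinset.image (fun x => (x.1, x.2.2)), S N p := by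
    intro N
    have e1 : SInt (hecke n m φ) N G = ∑ x ∈ hfin.toFinset, ∑ s : Fin N → F,
        φ (hmat x * mat ((unif F) ^ ((N : ℤ) + 1)) (ds 1 s) 0 1) * e (ι (ds 1 s)) ^ Q := by
      rw [Finset.sum_comm]
      show (∑ s : Fin N → F, hecke n m φ (mat ((unif F) ^ ((N : ℤ) + 1)) (ds 1 s) 0 1) *
        e (ι (ds 1 s)) ^ Q) = _
      refine Finset.sum_congr rfl (fun s _ => ?_)
      rw [hhecke, Finset.sum_mul]
    rw [e1, ← Finset.sum_fiberwise_of_maps_to (t := hfin.toFinset.image fun x => (x.1, x.2.2))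
      (g := fun x => (x.1, x.2.2)) (fun x hx => Finset.mem_image_of_mem _ hx)]
    refine Finset.sum_congr rfl (fun p hp => ?_)
    obtain ⟨x0, hx0, rfl⟩ := Finset.mem_image.mp hp
    rw [hmem] at hx0
    obtain ⟨ha, hd, had, hcop, -⟩ := hx0
    rw [hS]
    symm
    refine Finset.sum_bij (fun c _ => (x0.1, pol c, x0.2.2)) ?_ ?_ ?_ ?_
    · intro c _
      rw [Finset.mem_filter, hmem]
      refine ⟨⟨ha, hd, had, hcop, ?_⟩, rfl⟩
      show (pol c).degree < x0.2.2.degree
      rw [degree_eq_natDegree hd.ne_zero]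
      exact pol_deg c
    · intro c _ c' _ h
      exact pol_inj (Prod.ext_iff.mp (Prod.ext_iff.mp h).2).1
    · intro x hx
      rw [Finset.mem_filter, hmem] at hx
      obtain ⟨⟨-, -, -, -, h5⟩, h6⟩ := hx
      have h7 : x.1 = x0.1 := (Prod.ext_iff.mp h6).1
      have h8 : x.2.2 = x0.2.2 := (Prod.ext_iff.mp h6).2
      rw [h8, degree_eq_natDegree hd.ne_zero] at h5
      refine ⟨fun j => x.2.1.coeff (j : ℕ), Finset.mem_univ _, ?_⟩
      rw [pol_surj h5, ← h7, ← h8]
    · intro c _
      refine Finset.sum_congr rfl (fun s _ => ?_)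
      simp only
      rw [btm_term hLAU hMTX hVAL hφ ha hd]
  -- estimate of the fibres
  have hmain : ∀ (N : ℕ) (a d : F[X]), a.Monic → d.Monic → a.natDegree ≤ N →
      ∃ N' : ℕ, N' + a.natDegree = N + d.natDegree ∧
      ‖S N (a, d) - ∑ r : (Fin N' → F) × (Fin a.natDegree → F),
        val φ ((N' : ℤ) + 1) (ds 1 r.1) * (e (ι (emb F d / emb F a * ds 1 r.1)) +
          e (ι (emb F (pol r.2) / emb F a))) ^ Q‖ ≤
        B * (((Fintype.card F : ℕ) : ℝ) ^ (N + 1))⁻¹ := by
    intro N a d ha hd haN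
    refine ⟨N + d.natDegree - a.natDegree, by omega, ?_⟩
    have := btm_main hLAU hVAL ι hι hφ hB hI e he he1 ha hd a.natDegree d.natDegree N
      (N + d.natDegree - a.natDegree) rfl rfl (by omega) Q
    refine le_trans (le_of_eq ?_) this
    congr 1
    congr 1
    rw [hS, Fintype.sum_prod_type_right]
    have e1 : ((N : ℤ) + 1 + (d.natDegree : ℤ) - (a.natDegree : ℤ)) =
      ((N + d.natDegree - a.natDegree : ℕ) : ℤ) + 1 := by omega
    simp only
    rw [e1]
  have hother : ∀ (N : ℕ) (a d : F[X]), a.Monic → d.Monic → a.natDegree ≤ N →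
      1 ≤ a.natDegree → ‖S N (a, d)‖ ≤ B * (((Fintype.card F : ℕ) : ℝ) ^ (N + 1))⁻¹ := by
    intro N a d ha hd haN ha1
    obtain ⟨N', hN', hle⟩ := hmain N a d ha hd haN
    have e1 : ∑ r : (Fin N' → F) × (Fin a.natDegree → F),
        val φ ((N' : ℤ) + 1) (ds 1 r.1) * (e (ι (emb F d / emb F a * ds 1 r.1)) +
          e (ι (emb F (pol r.2) / emb F a))) ^ Q = 0 := by
      rw [Fintype.sum_prod_type]
      have e2 : ∀ s : Fin N' → F, ∑ v : Fin a.natDegree → F,
          val φ ((N' : ℤ) + 1) (ds 1 s) * (e (ι (emb F d / emb F a * ds 1 s)) +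
            e (ι (emb F (pol v) / emb F a))) ^ Q =
          val φ ((N' : ℤ) + 1) (ds 1 s) *
            ∑ v : Fin a.natDegree → F, (e (ι (emb F (pol v) / emb F a))) ^ Q := by
        intro s
        rw [← Finset.mul_sum]
        congr 1
        have : Nonempty (Fin a.natDegree) := ⟨⟨0, by omega⟩⟩
        have : Nontrivial (Fin a.natDegree → F) := Function.nontrivial
        refine hPOW F C (ι.comp (cst F)) (Fin a.natDegree → F)
          (fun v => e (ι (emb F (pol v) / emb F a))) ?_ ?_ _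
        · intro v w
          have : (pol (v + w) : F[X]) = pol v + pol w := by
            unfold pol
            rw [← Finset.sum_add_distrib]
            refine Finset.sum_congr rfl (fun j _ => ?_)
            rw [Pi.add_apply, map_add]; ring
          rw [this, map_add, add_div, map_add, he.add]
        · intro c v
          have : (pol (c • v) : F[X]) = Polynomial.C c * pol v := by
            unfold pol
            rw [Finset.mul_sum]
            refine Finset.sum_congr rfl (fun j _ => ?_)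
            rw [Pi.smul_apply, smul_eq_mul, map_mul]; ring
          rw [this, map_mul, (hLAU F).2.2.2.1 c, mul_div_assoc, map_mul, he.smul]
          rfl
      rw [Finset.sum_congr rfl (fun s _ => e2 s), ← Finset.sum_mul,
        lemB hLAU hVAL hφ h0 N' _ (by omega) (by omega), zero_mul]
    rwa [e1, sub_zero] at hle
  have hone : ∀ N : ℕ, ‖S N (1, m) - SInt φ (N + m.natDegree) G'‖ ≤
      B * (((Fintype.card F : ℕ) : ℝ) ^ (N + 1))⁻¹ := by
    intro N
    have := btm_main hLAU hVAL ι hι hφ hB hI e he he1 (monic_one (R := F)) hm 0 m.natDegree N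
      (N + m.natDegree) natDegree_one rfl (by omega) Q
    refine le_trans (le_of_eq ?_) this
    congr 1
    congr 1
    · rw [hS, Fintype.sum_prod_type_right]
      have e1 : ((N : ℤ) + 1 + (m.natDegree : ℤ) - ((1 : F[X]).natDegree : ℤ)) =
        ((N + m.natDegree : ℕ) : ℤ) + 1 := by rw [natDegree_one]; push_cast; ring
      simp only
      rw [e1]
    · rw [Fintype.sum_prod_type]
      show (∑ s : Fin (N + m.natDegree) → F,
        φ (mat ((unif F) ^ (((N + m.natDegree : ℕ) : ℤ) + 1)) (ds 1 s) 0 1) * G' (ds 1 s)) = _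
      refine Finset.sum_congr rfl (fun s _ => ?_)
      rw [Fintype.sum_unique]
      simp only [map_one, div_one]
      have e2 : (pol (default : Fin 0 → F) : F[X]) = 0 := by unfold pol; simp
      rw [e2, map_zero, map_zero]
      have e3 : e 0 = 0 := by
        have := he.van 0
        rwa [map_zero, map_zero] at this
      rw [e3, add_zero]
      rfl
  -- conclusion
  have h1m : ((1 : F[X]), m) ∈ hfin.toFinset.image (fun x => (x.1, x.2.2)) := by
    rw [Finset.mem_image]
    refine ⟨(1, 0, m), ?_, rfl⟩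
    rw [hmem]
    refine ⟨monic_one, hm, one_mul m, isCoprime_one_left, ?_⟩
    show (0 : F[X]).degree < m.degree
    rw [degree_zero, degree_eq_natDegree hm.ne_zero]
    exact WithBot.bot_lt_coe _
  have hdiff : ∀ N : ℕ, m.natDegree ≤ N →
      ‖SInt (hecke n m φ) N G - SInt φ (N + m.natDegree) G'‖ ≤
        B * (((Fintype.card F : ℕ) : ℝ) ^ (N + 1))⁻¹ := by
    intro N hN
    have e1 : SInt φ (N + m.natDegree) G' =
        ∑ p ∈ hfin.toFinset.image (fun x => (x.1, x.2.2)),
          if p = ((1 : F[X]), m) then SInt φ (N + m.natDegree) G' else 0 := by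
      rw [Finset.sum_ite_eq' , if_pos h1m]
    rw [hSd, e1, ← Finset.sum_sub_distrib]
    apply IsUltrametricDist.norm_sum_le_of_forall_le_of_nonneg (by positivity)
    intro p hp
    by_cases hp1 : p = ((1 : F[X]), m)
    · rw [if_pos hp1, hp1]; exact hone N
    · rw [if_neg hp1, sub_zero]
      obtain ⟨x, hx, rfl⟩ := Finset.mem_image.mp hp
      rw [hmem] at hx
      obtain ⟨h1, h2, h3, h4, h5⟩ := hx
      refine hother N x.1 x.2.2 h1 h2 ?_ ?_
      · refine le_trans ?_ hN
        rw [← h3, h1.natDegree_mul h2]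
        omega
      · by_contra hc
        have h6 : x.1.natDegree = 0 := by omega
        have h6 : x.1 = 1 := eq_one_of_monic_natDegree_zero h1 h6
        apply hp1
        rw [h6, one_mul] at h3
        rw [h6, h3]
  have hlim : Tendsto (fun N : ℕ => SInt (hecke n m φ) N G - SInt φ (N + m.natDegree) G')
      atTop (nhds 0) := by
    apply squeeze_zero_norm' (a := fun N : ℕ => B * (((Fintype.card F : ℕ) : ℝ) ^ (N + 1))⁻¹)
    · filter_upwards [eventually_ge_atTop m.natDegree] with N hN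
      exact hdiff N hN
    · have h1 : Tendsto (fun N : ℕ => ((((Fintype.card F : ℕ) : ℝ) ^ (N + 1))⁻¹ : ℝ)) atTop
          (nhds 0) := by
        apply tendsto_inv_atTop_zero.comp
        exact (tendsto_add_atTop_iff_nat 1).2 (tendsto_pow_atTop_atTop_of_one_lt hq)
      have := h1.const_mul B
      rwa [mul_zero] at this
  have := tendsto_nhds_unique hlim (t1.sub t2)
  exact (sub_eq_zero.1 this.symm)

end Pool.Agent.HK.H98
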