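import Pool.Agent.Helper8_HK.Stmt0
import Pool.Agent.Helper8_HK.Stmt3

/-! Module TEX of squad HK: the exponential function of the lattice of polynomials. -/

namespace Pool.Agent.HK.H98

open Polynomial Filter

section alg

variable {F : Type} [Field F] [Fintype F] {C : Type} [Field C]

lemma tex_roots (j : F →+* C) :
    ∏ c : F, (X - Polynomial.C (j c)) = (X ^ Fintype.card F - X : C[X]) := by
  have h0 : (X ^ Fintype.card F - X : F[X]) = ∏ c : F, (X - Polynomial.C c) := by
    have hdeg := FiniteField.X_pow_card_sub_X_natDegree_eq F (Fintype.one_lt_card (α := F))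
    have hm : (X ^ Fintype.card F - X : F[X]).Monic := by
      apply Polynomial.monic_X_pow_sub
      rw [Polynomial.degree_X]
      exact_mod_cast Fintype.one_lt_card (α := F)
    have := Polynomial.prod_multiset_X_sub_C_of_monic_of_roots_card_eq hm (by
      rw [FiniteField.roots_X_pow_card_sub_X, hdeg]; simp)
    rw [FiniteField.roots_X_pow_card_sub_X] at this
    rw [← this]
    rfl
  have h1 := congrArg (Polynomial.map j) h0
  rw [Polynomial.map_prod] at h1
  simp only [Polynomial.map_sub, Polynomial.map_pow, Polynomial.map_X, Polynomial.map_C] at h1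
  exact h1.symm

lemma tex_sum (j : F →+* C) (t : C) (h : ∀ c : F, t - j c ≠ 0) :
    ∑ c : F, (t - j c)⁻¹ = (t - t ^ Fintype.card F)⁻¹ := by
  classical
  set P : C[X] := ∏ c : F, (X - Polynomial.C (j c)) with hP
  have hPe : P.eval t ≠ 0 := by
    rw [hP, Polynomial.eval_prod]
    refine Finset.prod_ne_zero_iff.2 (fun c _ => ?_)
    simpa using h c
  have hs : P.Splits := by
    rw [hP]
    exact Polynomial.Splits.prod (fun c _ => Polynomial.Splits.X_sub_C _)
  have h1 := hs.eval_derivative_div_eval_of_ne_zero hPe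
  have hr : P.roots = (Finset.univ : Finset F).val.map j := by
    rw [hP]
    have := Polynomial.roots_multiset_prod_X_sub_C ((Finset.univ : Finset F).val.map j)
    rw [Multiset.map_map] at this
    exact this
  rw [hr, Multiset.map_map] at h1
  have hq : ((Fintype.card F : ℕ) : C) = 0 := by
    rw [← map_natCast j, Nat.cast_card_eq_zero F, map_zero]
  have hPd : P.derivative.eval t = -1 := by
    rw [hP, tex_roots j, Polynomial.derivative_sub, Polynomial.derivative_X_pow, hq,
      Polynomial.derivative_X]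
    simp
  have hPe' : P.eval t = t ^ Fintype.card F - t := by
    rw [hP, tex_roots j]; simp
  rw [hPd, hPe'] at h1
  have h3 : (Multiset.map ((fun z => 1 / (t - z)) ∘ ⇑j) (Finset.univ : Finset F).val).sum =
      ∑ c : F, (t - j c)⁻¹ := by
    unfold Finset.sum
    congr 1
    apply Multiset.map_congr rfl
    intro c _
    simp
  rw [← h3, ← h1, ← neg_sub t, div_neg, neg_div, neg_neg, one_div]

lemma tex_ne (j : F →+* C) (x y : C) (hy : y ≠ 0) (h : ∀ c : F, x - j c * y ≠ 0) :
    x - x ^ Fintype.card F / y ^ (Fintype.card F - 1) ≠ 0 := by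
  have h1 : ∀ c : F, x / y - j c ≠ 0 := by
    intro c hc
    apply h c
    rw [sub_eq_zero] at hc ⊢
    rw [← hc]; field_simp
  have h2 : (x / y) ^ Fintype.card F - x / y ≠ 0 := by
    have := congrArg (Polynomial.eval (x / y)) (tex_roots (C := C) j)
    rw [Polynomial.eval_prod] at this
    simp only [Polynomial.eval_sub, Polynomial.eval_X, Polynomial.eval_C,
      Polynomial.eval_pow] at this
    rw [← this]
    exact Finset.prod_ne_zero_iff.2 (fun c _ => h1 c)
  intro h3
  apply h2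
  have hq : 1 ≤ Fintype.card F := Fintype.card_pos
  have h4 : y ^ Fintype.card F = y ^ (Fintype.card F - 1) * y := by
    rw [← pow_succ]; congr 1; omega
  have h5 : (x / y) ^ Fintype.card F - x / y =
      -(x - x ^ Fintype.card F / y ^ (Fintype.card F - 1)) / y := by
    rw [div_pow, h4]
    field_simp
    ring
  rw [h5, h3]; simp

lemma tex_sum2 (j : F →+* C) (x y : C) (hy : y ≠ 0) (h : ∀ c : F, x - j c * y ≠ 0) :
    ∑ c : F, (x - j c * y)⁻¹ = (x - x ^ Fintype.card F / y ^ (Fintype.card F - 1))⁻¹ := by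
  have hq : 1 ≤ Fintype.card F := Fintype.card_pos
  have h1 : ∀ c : F, x / y - j c ≠ 0 := by
    intro c hc
    apply h c
    rw [sub_eq_zero] at hc ⊢
    rw [← hc]; field_simp
  have h2 := tex_sum j (x / y) h1
  have h3 : ∀ c : F, (x - j c * y)⁻¹ = y⁻¹ * (x / y - j c)⁻¹ := by
    intro c
    rw [← mul_inv]
    congr 1
    field_simp
  rw [Finset.sum_congr rfl (fun c _ => h3 c), ← Finset.mul_sum, h2, ← mul_inv]
  congr 1
  have h4 : y ^ Fintype.card F = y ^ (Fintype.card F - 1) * y := by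
    rw [← pow_succ]; congr 1; omega
  rw [div_pow, h4]
  field_simp

/-- The approximations of the exponential function. -/
noncomputable def eD (T : ℕ → C) (q : ℕ) : ℕ → C → C
  | 0, z => z
  | d + 1, z => eD T q d z - (eD T q d z) ^ q / (eD T q d (T d)) ^ (q - 1)

lemma eD_add (T : ℕ → C) (q : ℕ) (hq : ∀ x y : C, (x + y) ^ q = x ^ q + y ^ q) (d : ℕ) :
    ∀ z w : C, eD T q d (z + w) = eD T q d z + eD T q d w := by
  induction d with
  | zero => intro z w; rfl
  | succ d ih =>
    intro z w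
    simp only [eD]
    rw [ih, hq]; ring

lemma eD_smul (T : ℕ → C) (q : ℕ) (c : C) (hc : c ^ q = c) (d : ℕ) :
    ∀ z : C, eD T q d (c * z) = c * eD T q d z := by
  induction d with
  | zero => intro z; rfl
  | succ d ih =>
    intro z
    simp only [eD]
    rw [ih, mul_pow, hc]; ring

end alg

section nrm

variable {C : Type} [NormedField C] [IsUltrametricDist C]

lemma tex_max (x y : C) (h : ‖y‖ < ‖x‖) : ‖x - y‖ = ‖x‖ := by
  have h1 := IsUltrametricDist.norm_add_eq_max_of_norm_ne_norm (x := x) (y := -y)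
    (by rw [norm_neg]; exact h.ne')
  rw [sub_eq_add_neg, h1, norm_neg]; exact max_eq_left h.le

lemma tex_max' (x y : C) : ‖x - y‖ ≤ max ‖x‖ ‖y‖ := by
  rw [sub_eq_add_neg, ← norm_neg y]
  exact IsUltrametricDist.norm_add_le_max x (-y)

/-- Norms of the approximations. -/
lemma eD_norm (T : ℕ → C) (q : ℕ) (hq : 2 ≤ q) (hT : ∀ d, ‖T d‖ = (q : ℝ) ^ d) (d : ℕ) :
    ∃ Q : ℝ, 0 < Q ∧ (∀ z : C, (q : ℝ) ^ d ≤ ‖z‖ → ‖eD T q d z‖ = ‖z‖ ^ (q ^ d) / Q) ∧
      (∀ z : C, ‖z‖ ≤ (q : ℝ) ^ d → ‖eD T q d z‖ ≤ ‖eD T q d (T d)‖) ∧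
      0 < ‖eD T q d (T d)‖ ∧ (q : ℝ) * ‖eD T q d (T d)‖ ≤ ‖eD T q (d + 1) (T (d + 1))‖ := by
  have hq1 : (1 : ℝ) < q := by exact_mod_cast (by omega : 1 < q)
  have hq0 : (0 : ℝ) < q := by linarith
  -- the step from the first property to the last
  have key : ∀ d : ℕ, ∀ Q : ℝ, 0 < Q →
      (∀ z : C, (q : ℝ) ^ d ≤ ‖z‖ → ‖eD T q d z‖ = ‖z‖ ^ (q ^ d) / Q) →
      0 < ‖eD T q d (T d)‖ ∧
      (∀ z : C, (q : ℝ) ^ d < ‖z‖ → ‖eD T q d (T d)‖ < ‖eD T q d z‖ ∧
        ‖eD T q (d + 1) z‖ = ‖eD T q d z‖ ^ q / ‖eD T q d (T d)‖ ^ (q - 1)) ∧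
      (q : ℝ) * ‖eD T q d (T d)‖ ≤ ‖eD T q (d + 1) (T (d + 1))‖ := by
    intro d Q hQ h1
    have hy : ‖eD T q d (T d)‖ = ((q : ℝ) ^ d) ^ (q ^ d) / Q := by
      rw [h1 _ (by rw [hT]), hT]
    have hy0 : 0 < ‖eD T q d (T d)‖ := by rw [hy]; positivity
    have hz : ∀ z : C, (q : ℝ) ^ d < ‖z‖ → ‖eD T q d (T d)‖ < ‖eD T q d z‖ ∧
        ‖eD T q (d + 1) z‖ = ‖eD T q d z‖ ^ q / ‖eD T q d (T d)‖ ^ (q - 1) := by
      intro z hz
      have h2 : ‖eD T q d (T d)‖ < ‖eD T q d z‖ := by
        rw [hy, h1 z hz.le]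
        apply div_lt_div_of_pos_right _ hQ
        exact pow_lt_pow_left₀ hz (by positivity) (by positivity)
      refine ⟨h2, ?_⟩
      have h3 : ‖(eD T q d z) ^ q / (eD T q d (T d)) ^ (q - 1)‖ =
          ‖eD T q d z‖ ^ q / ‖eD T q d (T d)‖ ^ (q - 1) := by
        rw [norm_div, norm_pow, norm_pow]
      have h4 : ‖eD T q d z‖ < ‖(eD T q d z) ^ q / (eD T q d (T d)) ^ (q - 1)‖ := by
        rw [h3, lt_div_iff₀ (by positivity)]
        have e : ‖eD T q d z‖ ^ q = ‖eD T q d z‖ * ‖eD T q d z‖ ^ (q - 1) := by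
          rw [← pow_succ']; congr 1; omega
        rw [e]
        apply mul_lt_mul_of_pos_left _ (by linarith)
        exact pow_lt_pow_left₀ h2 hy0.le (by omega)
      have h5 : eD T q (d + 1) z =
          eD T q d z - (eD T q d z) ^ q / (eD T q d (T d)) ^ (q - 1) := rfl
      rw [h5, ← norm_neg, neg_sub, tex_max _ _ h4, h3]
    refine ⟨hy0, hz, ?_⟩
    have h6 : (q : ℝ) ^ d < ‖T (d + 1)‖ := by
      rw [hT]; exact pow_lt_pow_right₀ hq1 (by omega)
    obtain ⟨h7, h8⟩ := hz _ h6
    -- `‖e_d (T^(d+1))‖ ≥ q * ‖e_d(T^d)‖`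
    have h9 : (q : ℝ) * ‖eD T q d (T d)‖ ≤ ‖eD T q d (T (d + 1))‖ := by
      rw [hy, h1 _ h6.le, hT, ← mul_div_assoc]
      apply div_le_div_of_nonneg_right _ hQ.le
      rw [pow_succ (q : ℝ) d, mul_pow, mul_comm]
      apply mul_le_mul_of_nonneg_left _ (by positivity)
      calc (q : ℝ) = (q : ℝ) ^ 1 := (pow_one _).symm
        _ ≤ (q : ℝ) ^ (q ^ d) := pow_le_pow_right₀ hq1.le (Nat.one_le_pow _ _ (by omega))
    rw [h8]
    rw [le_div_iff₀ (by positivity)]
    have e : ‖eD T q d (T (d + 1))‖ ^ q =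
        ‖eD T q d (T (d + 1))‖ * ‖eD T q d (T (d + 1))‖ ^ (q - 1) := by
      rw [← pow_succ']; congr 1; omega
    rw [e]
    apply mul_le_mul h9 (pow_le_pow_left₀ hy0.le h7.le _) (by positivity) (by positivity)
  induction d with
  | zero =>
    have h1 : ∀ z : C, (q : ℝ) ^ 0 ≤ ‖z‖ → ‖eD T q 0 z‖ = ‖z‖ ^ (q ^ 0) / 1 := by
      intro z _
      simp [eD]
    obtain ⟨a, _, b⟩ := key 0 1 one_pos h1
    refine ⟨1, one_pos, h1, ?_, a, b⟩
    intro z hz
    simp only [eD]
    rw [hT]; exact hz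
  | succ d ih =>
    obtain ⟨Q, hQ, h1, h2, h3, h4⟩ := ih
    obtain ⟨_, hz, _⟩ := key d Q hQ h1
    have hQ' : 0 < Q ^ q * ‖eD T q d (T d)‖ ^ (q - 1) := by positivity
    have hlt : (q : ℝ) ^ d < (q : ℝ) ^ (d + 1) := pow_lt_pow_right₀ hq1 (by omega)
    have h5 : ∀ z : C, (q : ℝ) ^ (d + 1) ≤ ‖z‖ →
        ‖eD T q (d + 1) z‖ = ‖z‖ ^ (q ^ (d + 1)) / (Q ^ q * ‖eD T q d (T d)‖ ^ (q - 1)) := by
      intro z hzz
      rw [(hz z (lt_of_lt_of_le hlt hzz)).2, h1 z (hlt.le.trans hzz), div_pow, ← pow_mul,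
        ← pow_succ, div_div]
    obtain ⟨k1, k2, k3⟩ := key (d + 1) _ hQ' h5
    refine ⟨_, hQ', h5, ?_, k1, k3⟩
    intro z hzz
    have hy1 : ‖eD T q d (T d)‖ ≤ ‖eD T q (d + 1) (T (d + 1))‖ := by nlinarith
    rcases le_or_gt ‖z‖ ((q : ℝ) ^ d) with hle | hgt
    · have h6 := h2 z hle
      have h7 : ‖(eD T q d z) ^ q / (eD T q d (T d)) ^ (q - 1)‖ ≤ ‖eD T q d (T d)‖ := by
        rw [norm_div, norm_pow, norm_pow, div_le_iff₀ (by positivity), ← pow_succ']
        have e : q - 1 + 1 = q := by omega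
        rw [e]
        exact pow_le_pow_left₀ (norm_nonneg _) h6 _
      have h8 : eD T q (d + 1) z =
          eD T q d z - (eD T q d z) ^ q / (eD T q d (T d)) ^ (q - 1) := rfl
      rw [h8]
      exact (tex_max' _ _).trans (max_le (h6.trans hy1) (h7.trans hy1))
    · have h6 : (q : ℝ) ^ d < ‖T (d + 1)‖ := by rw [hT]; exact hlt
      rw [(hz z hgt).2, (hz _ h6).2]
      apply div_le_div_of_nonneg_right _ (by positivity)
      apply pow_le_pow_left₀ (norm_nonneg _)
      rw [h1 z hgt.le, h1 _ h6.le]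
      apply div_le_div_of_nonneg_right _ hQ.le
      apply pow_le_pow_left₀ (norm_nonneg _)
      rw [hT]; exact hzz

lemma eD_succ_norm (T : ℕ → C) (q : ℕ) (hq : 2 ≤ q) (d : ℕ) (z : C)
    (h : ‖eD T q d z‖ < ‖eD T q d (T d)‖) : ‖eD T q (d + 1) z‖ = ‖eD T q d z‖ := by
  have e : eD T q (d + 1) z =
      eD T q d z - (eD T q d z) ^ q / (eD T q d (T d)) ^ (q - 1) := rfl
  rw [e]
  by_cases h0 : eD T q d z = 0
  · rw [h0, zero_pow (by omega)]; simp
  · apply tex_max
    have h1 : 0 < ‖eD T q d z‖ := norm_pos_iff.2 h0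
    have hyp : 0 < ‖eD T q d (T d)‖ := h1.trans h
    rw [norm_div, norm_pow, norm_pow, div_lt_iff₀ (by positivity)]
    have e2 : ‖eD T q d z‖ ^ q = ‖eD T q d z‖ * ‖eD T q d z‖ ^ (q - 1) := by
      rw [← pow_succ']; congr 1; omega
    rw [e2]
    apply mul_lt_mul_of_pos_left _ h1
    exact pow_lt_pow_left₀ h h1.le (by omega)

/-- Convergence. -/
lemma eD_conv [CompleteSpace C] (T : ℕ → C) (q : ℕ) (hq : 2 ≤ q)
    (hT : ∀ d, ‖T d‖ = (q : ℝ) ^ d) (z : C) :
    (∃ l : C, Tendsto (fun d => eD T q d z) atTop (nhds l)) ∧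
    (∃ D : ℕ, ∀ d, D ≤ d → ‖eD T q d z‖ = ‖eD T q D z‖) := by
  have hq1 : (1 : ℝ) < q := by exact_mod_cast (by omega : 1 < q)
  obtain ⟨D, hD⟩ := pow_unbounded_of_one_lt ‖z‖ hq1
  set M := ‖eD T q D (T D)‖ with hM
  have hM0 : 0 < M := by
    obtain ⟨_, _, _, _, h, _⟩ := eD_norm T q hq hT D
    exact h
  have hy : ∀ k : ℕ, (q : ℝ) ^ k * M ≤ ‖eD T q (k + D) (T (k + D))‖ := by
    intro k
    induction k with
    | zero => rw [Nat.zero_add, pow_zero, one_mul]
    | succ k ih =>
      obtain ⟨_, _, _, _, _, h⟩ := eD_norm T q hq hT (k + D)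
      have e : k + 1 + D = k + D + 1 := by ring
      rw [e]
      calc (q : ℝ) ^ (k + 1) * M = q * ((q : ℝ) ^ k * M) := by ring
        _ ≤ q * ‖eD T q (k + D) (T (k + D))‖ := by
          apply mul_le_mul_of_nonneg_left ih (by linarith)
        _ ≤ _ := h
  have hb : ∀ k : ℕ, ‖eD T q (k + D) z‖ ≤ M := by
    intro k
    induction k with
    | zero =>
      obtain ⟨_, _, _, h, _, _⟩ := eD_norm T q hq hT D
      rw [Nat.zero_add]
      exact h z hD.le
    | succ k ih =>
      have e : k + 1 + D = k + D + 1 := by ring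
      rw [e]
      have h1 : M ≤ ‖eD T q (k + D) (T (k + D))‖ := by
        refine le_trans ?_ (hy k)
        have : (1 : ℝ) ≤ (q : ℝ) ^ k := one_le_pow₀ hq1.le
        nlinarith
      have e2 : eD T q (k + D + 1) z = eD T q (k + D) z -
        (eD T q (k + D) z) ^ q / (eD T q (k + D) (T (k + D))) ^ (q - 1) := rfl
      rw [e2]
      have hyp : 0 < ‖eD T q (k + D) (T (k + D))‖ := hM0.trans_le h1
      refine (tex_max' _ _).trans (max_le ih ?_)
      rw [norm_div, norm_pow, norm_pow, div_le_iff₀ (by positivity)]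
      have e3 : ‖eD T q (k + D) z‖ ^ q =
          ‖eD T q (k + D) z‖ * ‖eD T q (k + D) z‖ ^ (q - 1) := by
        rw [← pow_succ']; congr 1; omega
      rw [e3]
      apply mul_le_mul ih (pow_le_pow_left₀ (norm_nonneg _) (ih.trans h1) _) (by positivity) hM0.le
  constructor
  · have hc : CauchySeq (fun k => eD T q (k + D) z) := by
      apply cauchySeq_of_le_geometric ((q : ℝ)⁻¹) M (inv_lt_one_of_one_lt₀ hq1)
      intro k
      have e : k + 1 + D = k + D + 1 := by ring
      have e2 : eD T q (k + 1 + D) z = eD T q (k + D) z -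
        (eD T q (k + D) z) ^ q / (eD T q (k + D) (T (k + D))) ^ (q - 1) := by rw [e]; rfl
      rw [dist_eq_norm, e2, sub_sub_cancel, norm_div, norm_pow, norm_pow]
      have hyk := hy k
      have hqk : (0 : ℝ) < (q : ℝ) ^ k := by positivity
      have hpos : 0 < ‖eD T q (k + D) (T (k + D))‖ := lt_of_lt_of_le (by positivity) hyk
      rw [div_le_iff₀ (by positivity)]
      have e3 : ‖eD T q (k + D) z‖ ^ q =
          ‖eD T q (k + D) z‖ * ‖eD T q (k + D) z‖ ^ (q - 1) := by
        rw [← pow_succ']; congr 1; omega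
      rw [e3, mul_assoc]
      apply mul_le_mul (hb k) _ (by positivity) hM0.le
      -- `x^(q-1) ≤ q^-k y^(q-1)`
      have h2 : ‖eD T q (k + D) z‖ ≤ ((q : ℝ)⁻¹) ^ k * ‖eD T q (k + D) (T (k + D))‖ := by
        rw [inv_pow, ← div_eq_inv_mul, le_div_iff₀ hqk]
        calc ‖eD T q (k + D) z‖ * (q : ℝ) ^ k ≤ M * (q : ℝ) ^ k :=
              mul_le_mul_of_nonneg_right (hb k) hqk.le
          _ = (q : ℝ) ^ k * M := mul_comm _ _
          _ ≤ _ := hyk
      calc ‖eD T q (k + D) z‖ ^ (q - 1)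
          ≤ (((q : ℝ)⁻¹) ^ k * ‖eD T q (k + D) (T (k + D))‖) ^ (q - 1) :=
            pow_le_pow_left₀ (norm_nonneg _) h2 _
        _ = (((q : ℝ)⁻¹) ^ k) ^ (q - 1) * ‖eD T q (k + D) (T (k + D))‖ ^ (q - 1) := mul_pow _ _ _
        _ ≤ ((q : ℝ)⁻¹) ^ k * ‖eD T q (k + D) (T (k + D))‖ ^ (q - 1) := by
          apply mul_le_mul_of_nonneg_right _ (by positivity)
          have h3 : ((q : ℝ)⁻¹) ^ k ≤ 1 :=
            pow_le_one₀ (by positivity) (inv_le_one_of_one_le₀ hq1.le)
          calc (((q : ℝ)⁻¹) ^ k) ^ (q - 1) ≤ (((q : ℝ)⁻¹) ^ k) ^ 1 :=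
                pow_le_pow_of_le_one (by positivity) h3 (by omega)
            _ = _ := pow_one _
    obtain ⟨l, hl⟩ := cauchySeq_tendsto_of_complete hc
    exact ⟨l, (tendsto_add_atTop_iff_nat D).1 hl⟩
  · refine ⟨D + 1, ?_⟩
    intro d hd
    obtain ⟨m, rfl⟩ := Nat.exists_eq_add_of_le hd
    induction m with
    | zero => rfl
    | succ m ih =>
      rw [← ih (by omega)]
      have e : D + 1 + m = (m + 1) + D := by ring
      have e2 : D + 1 + (m + 1) = D + 1 + m + 1 := by ring
      rw [e2]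
      apply eD_succ_norm T q hq
      rw [e]
      refine lt_of_le_of_lt (hb (m + 1)) (lt_of_lt_of_le ?_ (hy (m + 1)))
      have : (1 : ℝ) < (q : ℝ) ^ (m + 1) := one_lt_pow₀ hq1 (by omega)
      nlinarith

end nrm

section fin

variable (F : Type) [Field F] [Fintype F]

open Classical in
/-- The polynomials of degree less than `d`. -/
noncomputable def AA : ℕ → Finset F[X]
  | 0 => {0}
  | d + 1 => (AA d ×ˢ (Finset.univ : Finset F)).image
      (fun x : F[X] × F => x.1 + Polynomial.C x.2 * X ^ d)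

lemma mem_AA (d : ℕ) : ∀ a : F[X], a ∈ AA F d ↔ ∀ i, d ≤ i → a.coeff i = 0 := by
  classical
  induction d with
  | zero =>
    intro a
    simp only [AA, Finset.mem_singleton]
    constructor
    · rintro rfl i _; simp
    · intro h; ext i; simpa using h i (Nat.zero_le i)
  | succ d ih =>
    intro a
    simp only [AA, Finset.mem_image, Finset.mem_product, Finset.mem_univ, and_true, Prod.exists]
    constructor
    · rintro ⟨b, c, hb, rfl⟩ i hi
      rw [Polynomial.coeff_add, (ih b).1 hb i (by omega), Polynomial.coeff_C_mul,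
        Polynomial.coeff_X_pow, if_neg (by omega)]
      simp
    · intro h
      refine ⟨a - Polynomial.C (a.coeff d) * X ^ d, a.coeff d, ?_, by ring⟩
      rw [ih]
      intro i hi
      rw [Polynomial.coeff_sub, Polynomial.coeff_C_mul, Polynomial.coeff_X_pow]
      rcases eq_or_lt_of_le hi with h1 | h1
      · subst h1; simp
      · rw [h i h1, if_neg (by omega)]; simp

lemma sum_AA {M : Type} [AddCommMonoid M] (d : ℕ) (f : F[X] → M) :
    ∑ a ∈ AA F (d + 1), f a = ∑ c : F, ∑ a ∈ AA F d, f (a + Polynomial.C c * X ^ d) := by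
  classical
  simp only [AA]
  rw [Finset.sum_image, Finset.sum_product_right]
  rintro ⟨b, c⟩ hb ⟨b', c'⟩ hb' h
  simp only [Finset.coe_product, Set.mem_prod, Finset.mem_coe, Finset.mem_univ, and_true] at hb hb'
  simp only at h
  have h1 := congrArg (fun P : F[X] => P.coeff d) h
  simp only [Polynomial.coeff_add, (mem_AA F d b).1 hb d le_rfl, (mem_AA F d b').1 hb' d le_rfl,
    Polynomial.coeff_C_mul, Polynomial.coeff_X_pow, if_true, mul_one, zero_add] at h1
  subst h1
  have h2 : b = b' := add_right_cancel h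
  rw [h2]

end fin

theorem tex (hLAU : LAUStmt) (hIMA : IMAStmt) : TEXStmt := by
  intro F _ _ C _ _ _ _ ι hι
  obtain ⟨L1, L2, L3, L4, -, -, -, -, -, -, -, -, -⟩ := hLAU F
  obtain ⟨-, I1, I2, I3, -, -, -, -, -, -, -⟩ := hIMA F C ι hι
  set q := Fintype.card F with hq
  have hq2 : 2 ≤ q := Fintype.one_lt_card
  have hq1 : (1 : ℝ) < q := by exact_mod_cast (by omega : 1 < q)
  set T : ℕ → C := fun d => ι (emb F (X ^ d)) with hTdef
  set j : F →+* C := ι.comp (cst F) with hj
  -- norms of polynomials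
  have hnorm : ∀ a : F[X], a ≠ 0 → ‖ι (emb F a)‖ = (q : ℝ) ^ a.natDegree := by
    intro a ha
    have h1 : InO (-(a.natDegree : ℤ)) (emb F a) := by
      intro i hi
      obtain ⟨k, rfl⟩ : ∃ k : ℕ, i = -(k : ℤ) := ⟨i.natAbs, by omega⟩
      rw [L1]
      exact Polynomial.coeff_eq_zero_of_natDegree_lt (by omega)
    have h2 : HahnSeries.coeff (emb F a) (-(a.natDegree : ℤ)) ≠ 0 := by
      rw [L1]
      exact Polynomial.leadingCoeff_ne_zero.2 ha
    rw [I2 _ _ h1 h2, neg_neg, zpow_natCast]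
  have hT : ∀ d, ‖T d‖ = (q : ℝ) ^ d := by
    intro d
    rw [hTdef]
    simp only
    rw [hnorm _ (pow_ne_zero _ X_ne_zero), natDegree_X_pow]
  -- Frobenius
  have hfrob : ∀ x y : C, (x + y) ^ q = x ^ q + y ^ q := by
    obtain ⟨p, hp⟩ := CharP.exists F
    obtain ⟨n, hpp, hn⟩ := FiniteField.card F p
    have : Fact p.Prime := ⟨hpp⟩
    have : CharP C p := charP_of_injective_ringHom j.injective p
    intro x y
    rw [hq, hn]
    exact add_pow_char_pow x y p n
  have hjq : ∀ c : F, (j c) ^ q = j c := by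
    intro c
    rw [← map_pow, hq, FiniteField.pow_card]
  have hadd := eD_add T q hfrob
  have hsmul : ∀ (c : F) (d : ℕ) (z : C), eD T q d (j c * z) = j c * eD T q d z :=
    fun c d z => eD_smul T q (j c) (hjq c) d z
  have hsub : ∀ (d : ℕ) (z w : C), eD T q d (z - w) = eD T q d z - eD T q d w := by
    intro d z w
    have := hadd d (z - w) w
    rw [sub_add_cancel] at this
    rw [this]; ring
  have hy0 : ∀ d, eD T q d (T d) ≠ 0 := by
    intro d
    obtain ⟨_, _, _, _, h, _⟩ := eD_norm T q hq2 hT d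
    exact norm_pos_iff.1 h
  have hemb : ∀ (a : F[X]) (c : F) (d : ℕ),
      ι (emb F (a + Polynomial.C c * X ^ d)) = ι (emb F a) + j c * T d := by
    intro a c d
    rw [map_add, map_mul, map_add, map_mul, L4]
    rfl
  -- partial sums
  have hS : ∀ d : ℕ, ∀ z : C, (∀ a ∈ AA F d, z ≠ ι (emb F a)) →
      eD T q d z ≠ 0 ∧ ∑ a ∈ AA F d, (z - ι (emb F a))⁻¹ = (eD T q d z)⁻¹ := by
    intro d
    induction d with
    | zero =>
      intro z hz
      simp only [AA, Finset.mem_singleton, forall_eq, map_zero] at hz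
      simp [AA, eD, hz]
    | succ d ih =>
      intro z hz
      have h1 : ∀ c : F, ∀ a ∈ AA F d, z - j c * T d ≠ ι (emb F a) := by
        intro c a ha h
        apply hz (a + Polynomial.C c * X ^ d)
        · rw [mem_AA]
          intro i hi
          rw [Polynomial.coeff_add, (mem_AA F d a).1 ha i (by omega), Polynomial.coeff_C_mul,
            Polynomial.coeff_X_pow, if_neg (by omega)]
          simp
        · rw [hemb, ← h]; ring
      have h2 : ∀ c : F, eD T q d z - j c * eD T q d (T d) ≠ 0 := by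
        intro c
        have := (ih _ (h1 c)).1
        rwa [hsub, hsmul] at this
      refine ⟨tex_ne j _ _ (hy0 d) h2, ?_⟩
      rw [sum_AA]
      have h3 : ∀ c : F, ∑ a ∈ AA F d, (z - ι (emb F (a + Polynomial.C c * X ^ d)))⁻¹ =
          (eD T q d z - j c * eD T q d (T d))⁻¹ := by
        intro c
        rw [← hsmul, ← hsub, ← (ih _ (h1 c)).2]
        apply Finset.sum_congr rfl
        intro a _
        rw [hemb]
        congr 1; ring
      rw [Finset.sum_congr rfl (fun c _ => h3 c)]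
      exact tex_sum2 j _ _ (hy0 d) h2
  -- vanishing
  have hV : ∀ d : ℕ, ∀ a ∈ AA F d, eD T q d (ι (emb F a)) = 0 := by
    intro d
    induction d with
    | zero =>
      intro a ha
      simp only [AA, Finset.mem_singleton] at ha
      subst ha
      simp [eD]
    | succ d ih =>
      intro a ha
      have h0 : a = (a - Polynomial.C (a.coeff d) * X ^ d) + Polynomial.C (a.coeff d) * X ^ d := by
        ring
      have h1 : (a - Polynomial.C (a.coeff d) * X ^ d) ∈ AA F d := by
        rw [mem_AA]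
        intro i hi
        rw [Polynomial.coeff_sub, Polynomial.coeff_C_mul, Polynomial.coeff_X_pow]
        rcases eq_or_lt_of_le hi with h1 | h1
        · subst h1; simp
        · rw [(mem_AA F (d + 1) a).1 ha i h1, if_neg (by omega)]; simp
      have h2 : eD T q d (ι (emb F a)) = j (a.coeff d) * eD T q d (T d) := by
        rw [h0, hemb, hadd, ih _ h1, hsmul, ← h0, zero_add]
      have e : eD T q (d + 1) (ι (emb F a)) = eD T q d (ι (emb F a)) -
        (eD T q d (ι (emb F a))) ^ q / (eD T q d (T d)) ^ (q - 1) := rfl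
      rw [e, h2, mul_pow, hjq]
      have h4 : (eD T q d (T d)) ^ q = (eD T q d (T d)) ^ (q - 1) * eD T q d (T d) := by
        rw [← pow_succ]; congr 1; omega
      rw [h4]
      have := hy0 d
      field_simp
      ring
  -- the function
  choose e he using fun z => (eD_conv T q hq2 hT z).1
  refine ⟨e, ?_, ?_, ?_, ?_, ?_⟩
  · intro z w
    refine tendsto_nhds_unique (he (z + w)) ?_
    have := (he z).add (he w)
    refine this.congr (fun d => ?_)
    exact (hadd d z w).symm
  · intro c z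
    refine tendsto_nhds_unique (he (ι (cst F c) * z)) ?_
    have := (he z).const_mul (ι (cst F c))
    refine this.congr (fun d => ?_)
    exact (hsmul c d z).symm
  · intro a
    refine tendsto_nhds_unique (he (ι (emb F a))) ?_
    refine (tendsto_const_nhds (x := (0 : C))).congr' ?_
    filter_upwards [eventually_ge_atTop (a.natDegree + 1)] with d hd
    refine (hV d a ?_).symm
    rw [mem_AA]
    intro i hi
    exact Polynomial.coeff_eq_zero_of_natDegree_lt (by omega)
  · intro z hz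
    have h1 : ∀ d, ‖eD T q d z‖ = ‖z‖ := by
      intro d
      induction d with
      | zero => rfl
      | succ d ih =>
        rw [eD_succ_norm T q hq2 d z, ih]
        rw [ih]
        refine lt_of_lt_of_le hz ?_
        clear ih
        induction d with
        | zero => simp [eD, hT]
        | succ d ih =>
          obtain ⟨_, _, _, _, _, h⟩ := eD_norm T q hq2 hT d
          nlinarith
    refine tendsto_nhds_unique (he z).norm ?_
    refine (tendsto_const_nhds (x := ‖z‖)).congr (fun d => (h1 d).symm)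
  · intro z hz
    have h1 : ∀ d, eD T q d z ≠ 0 := fun d => (hS d z (fun a _ => hz a)).1
    have h2 : e z ≠ 0 := by
      obtain ⟨D, hD⟩ := (eD_conv T q hq2 hT z).2
      have h3 : ‖e z‖ = ‖eD T q D z‖ := by
        refine tendsto_nhds_unique (he z).norm ?_
        refine (tendsto_const_nhds (x := ‖eD T q D z‖)).congr' ?_
        filter_upwards [eventually_ge_atTop D] with d hd
        exact (hD d hd).symm
      rw [← norm_pos_iff, h3]
      exact norm_pos_iff.2 (h1 D)
    refine ⟨h2, ?_⟩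
    -- summability
    have hsum : Summable (fun a : F[X] => (z - ι (emb F a))⁻¹) := by
      apply NonarchimedeanAddGroup.summable_of_tendsto_cofinite_zero
      rw [tendsto_zero_iff_norm_tendsto_zero, Metric.tendsto_nhds]
      intro ε hε
      rw [Filter.eventually_cofinite]
      obtain ⟨D, hD⟩ := pow_unbounded_of_one_lt (max ‖z‖ ε⁻¹) hq1
      refine (Finset.finite_toSet (AA F (D + 1))).subset ?_
      intro a ha
      simp only [dist_zero_right, norm_norm, Set.mem_ofPred_eq, not_lt, norm_inv] at ha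
      have h4 : ‖z - ι (emb F a)‖ ≤ ε⁻¹ := by
        have h5 : 0 < ‖z - ι (emb F a)‖ := norm_pos_iff.2 (sub_ne_zero.2 (hz a))
        rw [← inv_inv ‖z - ι (emb F a)‖]
        exact inv_anti₀ hε ha
      simp only [Finset.mem_coe]
      rw [mem_AA]
      intro i hi
      by_contra hne
      have ha0 : a ≠ 0 := by rintro rfl; simp at hne
      have h6 : i ≤ a.natDegree := Polynomial.le_natDegree_of_ne_zero hne
      have h7 : ‖ι (emb F a)‖ ≤ max ‖z‖ ε⁻¹ := by
        have e1 : ι (emb F a) = z - (z - ι (emb F a)) := by ring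
        rw [e1]
        exact (tex_max' _ _).trans (max_le_max le_rfl h4)
      rw [hnorm a ha0] at h7
      have h8 : (q : ℝ) ^ D ≤ (q : ℝ) ^ a.natDegree := pow_le_pow_right₀ hq1.le (by omega)
      linarith
    have hmono : Tendsto (fun d : ℕ => AA F d) atTop atTop := by
      apply Filter.tendsto_atTop_finset_of_monotone
      · apply monotone_nat_of_le_succ
        intro d a ha
        rw [mem_AA] at ha ⊢
        exact fun i hi => ha i (by omega)
      · intro a
        refine ⟨a.natDegree + 1, ?_⟩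
        rw [mem_AA]
        intro i hi
        exact Polynomial.coeff_eq_zero_of_natDegree_lt (by omega)
    have h9 := hsum.hasSum.comp hmono
    have h10 : Tendsto (fun d : ℕ => (eD T q d z)⁻¹) atTop (nhds ((e z)⁻¹)) :=
      (he z).inv₀ h2
    have h11 : ∑' a : F[X], (z - ι (emb F a))⁻¹ = (e z)⁻¹ := by
      refine tendsto_nhds_unique h9 (h10.congr (fun d => ?_))
      exact ((hS d z (fun a _ => hz a)).2).symm
    rw [← h11]
    exact hsum.hasSum

end Pool.Agent.HK.H98
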