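import Pool.Agent.Helper8_HK.Stmt2

/-! Module KEY of squad HK: the algebraic key theorem. -/

namespace Pool.Agent.HK.H98

open MvPolynomial

private lemma coeff_comp {r : ℕ} {k : Type} [Field k] (d : ZMod r → ℕ)
    (P : MvPolynomial (Ix r) k) (β : Ix r →₀ ℕ) :
    (∀ s, ld β s = d s) → MvPolynomial.coeff β (comp d P) = MvPolynomial.coeff β P := by
  intro h
  classical
  unfold comp
  rw [MvPolynomial.coeff_sum]
  by_cases hβ : β ∈ P.support
  · rw [Finset.sum_eq_single β]
    · simp [MvPolynomial.coeff_monomial]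
    · intro α _ hα
      simp [MvPolynomial.coeff_monomial, hα]
    · intro hn
      exact absurd (Finset.mem_filter.2 ⟨hβ, h⟩) hn
  · rw [MvPolynomial.notMem_support_iff.1 hβ]
    apply Finset.sum_eq_zero
    intro α hα
    have hα' := (Finset.mem_filter.1 hα).1
    have : α ≠ β := fun e => hβ (e ▸ hα')
    simp [MvPolynomial.coeff_monomial, this]

private lemma supp_comp {r : ℕ} {k : Type} [Field k] (d : ZMod r → ℕ)
    (P : MvPolynomial (Ix r) k) (β : Ix r →₀ ℕ) (hβ : β ∈ (comp d P).support) :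
    β ∈ P.support ∧ ∀ s, ld β s = d s := by
  classical
  rw [MvPolynomial.mem_support_iff] at hβ
  unfold comp at hβ
  rw [MvPolynomial.coeff_sum] at hβ
  obtain ⟨α, hα, hne⟩ := Finset.exists_ne_zero_of_sum_ne_zero hβ
  rw [MvPolynomial.coeff_monomial] at hne
  have : α = β := by
    by_contra h
    rw [if_neg h] at hne
    exact hne rfl
  subst this
  have := Finset.mem_filter.1 hα
  exact ⟨this.1, this.2⟩

private lemma cyc (r : ℕ) [NeZero r] (t : ZMod r → ℕ) (ht : ∀ i, t i = 1 ∨ t i = 2)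
    (h1 : ¬ ∀ i, t i = 1) (h2 : ¬ ∀ i, t i = 2) : ∃ m, t m = 1 ∧ t (m + 1) = 2 := by
  by_contra hcon
  push Not at hcon h1 h2
  obtain ⟨a, ha⟩ := h2
  have ha1 : t a = 1 := (ht a).resolve_right ha
  have key : ∀ k : ℕ, t (a + (k : ZMod r)) = 1 := by
    intro k
    induction k with
    | zero => simpa using ha1
    | succ k ih =>
      have h3 := hcon _ ih
      have h4 := (ht (a + (k : ZMod r) + 1)).resolve_right h3
      push_cast
      rw [← add_assoc]; exact h4
  obtain ⟨b, hb⟩ := h1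
  have h5 := key (b - a).val
  rw [ZMod.natCast_zmod_val] at h5
  simp at h5
  exact hb h5

theorem key (hCLB : CLBStmt) (hCLC : CLCStmt) (hKEW : KEWStmt) : KEYStmt := by
  intro p r hpf hr k _ hchar P hR hT hn1 hn2 hinv
  have hp2 : 2 ≤ p := hpf.out.two_le
  by_contra hP
  obtain ⟨α0, hα0⟩ := MvPolynomial.ne_zero_iff.1 hP
  have hα0' : α0 ∈ P.support := MvPolynomial.mem_support_iff.2 hα0
  -- pairs (tuple, monomial) with minimal sum
  classical
  let Q : ℕ → Prop := fun N => ∃ t : ZMod r → ℕ, (∀ i, t i = 1 ∨ t i = 2) ∧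
    (∃ α ∈ P.support, ∀ i, ld α i + t i = p * t (i + 1)) ∧ ∑ i, t i = N
  have hQ : ∃ N, Q N := by
    obtain ⟨t, ht, h⟩ := hT α0 hα0'
    exact ⟨_, t, ht, ⟨α0, hα0', h⟩, rfl⟩
  obtain ⟨t, ht, ⟨α, hα, hαt⟩, hN⟩ := Nat.find_spec hQ
  have hmin : ∀ t' : ZMod r → ℕ, (∀ i, t' i = 1 ∨ t' i = 2) →
      (∃ α ∈ P.support, ∀ i, ld α i + t' i = p * t' (i + 1)) → ∑ i, t i ≤ ∑ i, t' i := by
    intro t' h1 h2
    rw [hN]
    exact Nat.find_min' hQ ⟨t', h1, h2, rfl⟩
  have hdt : ∀ s : ZMod r → ℕ, (∀ i, s i = 1 ∨ s i = 2) → ∀ i, dt p s i + s i = p * s (i + 1) := by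
    intro s hs i
    have : s i ≤ p * s (i + 1) := by
      rcases hs i with h1 | h1 <;> rcases hs (i + 1) with h2 | h2 <;> rw [h1, h2] <;> omega
    unfold dt
    omega
  have hc1 : ¬ ∀ i, t i = 1 := by
    intro h
    apply hn1 α hα
    intro i
    have := hαt i
    rw [h i, h (i + 1)] at this
    omega
  have hc2 : ¬ ∀ i, t i = 2 := by
    intro h
    apply hn2 α hα
    intro i
    have := hαt i
    rw [h i, h (i + 1)] at this
    omega
  have hr2 : 2 ≤ r := by
    by_contra hlt
    have hr1 : r = 1 := by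
      have := NeZero.pos r
      omega
    subst hr1
    rcases ht 0 with h | h
    · exact hc1 (fun i => by rw [Subsingleton.elim i 0]; exact h)
    · exact hc2 (fun i => by rw [Subsingleton.elim i 0]; exact h)
  obtain ⟨m, hm1, hm2⟩ := cyc r t ht hc1 hc2
  have hmm : m ≠ m + 1 := by
    intro h
    rw [← h, hm1] at hm2
    omega
  set t' := Function.update t (m + 1) 1 with ht'
  have ht'b : ∀ i, t' i = 1 ∨ t' i = 2 := by
    intro i
    by_cases hi : i = m + 1
    · left; rw [hi, ht', Function.update_self]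
    · rw [ht', Function.update_of_ne hi]; exact ht i
  have hlt : ∑ i, t' i < ∑ i, t i := by
    apply Finset.sum_lt_sum
    · intro i _
      by_cases hi : i = m + 1
      · rw [hi, ht', Function.update_self, hm2]; omega
      · rw [ht', Function.update_of_ne hi]
    · exact ⟨m + 1, Finset.mem_univ _, by rw [ht', Function.update_self, hm2]; omega⟩
  have hzero : comp (dt p t') P = 0 := by
    by_contra hne
    obtain ⟨β, hβ⟩ := MvPolynomial.ne_zero_iff.1 hne
    obtain ⟨hβ1, hβ2⟩ := supp_comp _ _ β (MvPolynomial.mem_support_iff.2 hβ)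
    have := hmin t' ht'b ⟨β, hβ1, fun i => by rw [hβ2 i]; exact hdt t' ht'b i⟩
    omega
  have hB := hCLB p r k hr2 P hT hinv t ht m hm1 hm2 hzero
  have hC := hCLC p r k hr2 P hT hinv t ht m hm1
  have hred : Redu p (comp (dt p t) P) := by
    intro β hβ j
    exact hR β (supp_comp _ _ β hβ).1 j
  have hld : ∀ β ∈ (comp (dt p t) P).support, ld β m = 2 * p - 1 := by
    intro β hβ
    rw [(supp_comp _ _ β hβ).2 m]
    have := hdt t ht m
    rw [hm1, hm2] at this
    omega
  have hK := hKEW p r k (comp (dt p t) P) m hred hld hB hC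
  have hcα : MvPolynomial.coeff α (comp (dt p t) P) = MvPolynomial.coeff α P := by
    apply coeff_comp
    intro s
    have h1 := hαt s
    have h2 := hdt t ht s
    omega
  rw [hK] at hcα
  exact MvPolynomial.mem_support_iff.1 hα (by rw [← hcα]; simp)

end Pool.Agent.HK.H98
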